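import Pool.Agent.H732R3.DickS
import Pool.Agent.TH899.UG.Qd

set_option autoImplicit false

/-!
Cliques of slopes: lines `a p - b q = c` with infinitely many prime points near every position,
simultaneously for all the ratios of more than a quarter of given slopes
(the proof extends that of the starting file `Pool.Agent.TH899.UG.PairB4`).
-/

namespace Pool.Agent.Y860.SL

open Finset Pool.Agent.H732R3.BigQ Pool.Agent.H732R3.DickS Pool.Agent.TH899.UG

/-- there is a solvable equation of slope `m j / m i` with constant near `a B` -/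
def GoodAt {n : ℕ} (m : Fin n → ℕ) (C : ℕ) (B : ℤ) (i j : Fin n) : Prop :=
  ∃ (a b : ℕ) (c : ℤ), 1 ≤ a ∧ 1 ≤ b ∧ a * m j = b * m i ∧ c ≠ 0 ∧
      IsCoprime (a : ℤ) b ∧ IsCoprime (a : ℤ) c ∧ IsCoprime (b : ℤ) c ∧
      ¬ (Odd a ∧ Odd b ∧ Odd c) ∧ |c - a * B| ≤ C ∧
      Big {q : ℕ | q.Prime ∧ ∃ p : ℕ, p.Prime ∧ (a : ℤ) * p - b * q = c}

theorem GoodAt.mono {n : ℕ} {m : Fin n → ℕ} {C C' : ℕ} {B : ℤ} {i j : Fin n} (h : GoodAt m C B i j)
    (hC : C ≤ C') : GoodAt m C' B i j := by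
  obtain ⟨a, b, c, h1, h2, h3, h4, h5, h6, h7, h8, h9, h10⟩ := h
  exact ⟨a, b, c, h1, h2, h3, h4, h5, h6, h7, h8, h9.trans (by exact_mod_cast hC), h10⟩

theorem cliques {n K : ℕ} (PF : Finset (Fin n) → Prop)
    (hQ5 : ∀ (a b : Fin n → Fin K → ℤ), (∀ g i, 0 < a g i) →
    Function.Injective (fun x : Fin n × Fin K => (a x.1 x.2, b x.1 x.2)) →
    (∀ p : ℕ, p.Prime → ∃ n : ℤ, ∀ g i, ¬ ((p : ℤ) ∣ a g i * n + b g i)) →
    ∃ (S : Finset (Fin n)) (c : Fin n → Fin K), PF S ∧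
      Big {n : ℕ | ∀ g ∈ S, 0 < a g (c g) * (n : ℤ) + b g (c g) ∧
        Prime (a g (c g) * (n : ℤ) + b g (c g))})
    (m : Fin n → ℕ) (hm : ∀ i, 1 ≤ m i) : ∃ C : ℕ, ∀ B : ℤ,
    ∃ S : Finset (Fin n), PF S ∧ ∀ i ∈ S, ∀ j ∈ S, i < j → GoodAt m C B i j := by
  classical
  by_contra hcon
  have hcon1 : ∀ C : ℕ, ∃ B : ℤ, ∀ S : Finset (Fin n), PF S →
      ∃ i ∈ S, ∃ j ∈ S, i < j ∧ ¬ GoodAt m C B i j := by
    intro C
    by_contra h
    apply hcon
    refine ⟨C, fun B => ?_⟩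
    by_contra h2
    apply h
    refine ⟨B, fun S hS => ?_⟩
    by_contra h3
    apply h2
    refine ⟨S, hS, fun i hi j hj hij => ?_⟩
    by_contra h4
    exact h3 ⟨i, hi, j, hj, hij, h4⟩
  choose BB hBB using hcon1
  -- the graph of bad pairs is constant for arbitrarily large `C`
  obtain ⟨bp, hbp⟩ : ∃ bp : ℕ → Finset (Fin n × Fin n), ∀ C,
      bp C = univ.filter (fun z => z.1 < z.2 ∧ ¬ GoodAt m C (BB C) z.1 z.2) := ⟨_, fun _ => rfl⟩
  obtain ⟨Q, hQ⟩ : ∃ Q : Finset (Fin n × Fin n), ∀ C : ℕ, ∃ C' : ℕ, C ≤ C' ∧ bp C' = Q := by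
    obtain ⟨Q, hQ⟩ := Finite.exists_infinite_fiber bp
    refine ⟨Q, fun C => ?_⟩
    have h1 : (bp ⁻¹' {Q}).Infinite := Set.infinite_coe_iff.1 hQ
    obtain ⟨C', h2, h3⟩ := h1.exists_gt C
    exact ⟨C', h3.le, h2⟩
  choose CC hCC hCQ using hQ
  obtain ⟨AB, hABd⟩ : ∃ AB : ℕ → ℤ, ∀ C, AB C = BB (CC C) := ⟨_, fun _ => rfl⟩
  have hAB : ∀ (C : ℕ) (i j : Fin n), (i, j) ∈ Q → ∀ (a b : ℕ) (c : ℤ), 1 ≤ a → 1 ≤ b →
      a * m j = b * m i → c ≠ 0 → IsCoprime (a : ℤ) b → IsCoprime (a : ℤ) c → IsCoprime (b : ℤ) c →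
      ¬ (Odd a ∧ Odd b ∧ Odd c) → |c - a * AB C| ≤ C →
      ¬ Big {q : ℕ | q.Prime ∧ ∃ p : ℕ, p.Prime ∧ (a : ℤ) * p - b * q = c} := by
    intro C i j hij a b c h3 h4 h5 h6 h7 h8 h9 h10 h11 h12
    have h13 := hCQ C
    rw [← h13, hbp, mem_filter] at hij
    apply hij.2.2
    rw [hABd] at h11
    exact GoodAt.mono ⟨a, b, c, h3, h4, h5, h6, h7, h8, h9, h10, h11, h12⟩ (hCC C)
  have hPQ : ∀ S : Finset (Fin n), PF S → ∃ i ∈ S, ∃ j ∈ S, i < j ∧ (i, j) ∈ Q := by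
    intro S hS
    obtain ⟨i, hi, j, hj, hij, h⟩ := hBB (CC 0) S hS
    refine ⟨i, hi, j, hj, hij, ?_⟩
    rw [← hCQ 0, hbp, mem_filter]
    exact ⟨mem_univ _, hij, h⟩
  obtain ⟨M, hM⟩ : ∃ M : ℕ, M = ∏ g, m g := ⟨_, rfl⟩
  have hM0 : 0 < M := by rw [hM]; exact Finset.prod_pos fun g _ => hm g
  have hmM : ∀ g, m g ∣ M := fun g => by rw [hM]; exact Finset.dvd_prod_of_mem m (mem_univ g)
  obtain ⟨N, hN⟩ : ∃ N : ℕ, N = n * K + 2 := ⟨_, rfl⟩
  have hN0 : 0 < N := by omega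
  have hNz : (0 : ℤ) < N := by exact_mod_cast hN0
  obtain ⟨Λ, hΛ⟩ : ∃ Λ : ℕ, Λ = N.factorial := ⟨_, rfl⟩
  have hΛ0 : 0 < Λ := by rw [hΛ]; exact Nat.factorial_pos _
  obtain ⟨P, hP⟩ : ∃ P : ℕ, P = Λ * M := ⟨_, rfl⟩
  have hP0 : 0 < P := by rw [hP]; exact Nat.mul_pos hΛ0 hM0
  have hPz : (0 : ℤ) < P := by exact_mod_cast hP0
  obtain ⟨W, hW⟩ : ∃ W : ℕ, W = P * (N + 2) := ⟨_, rfl⟩
  obtain ⟨β, hβ0, hβs⟩ : ∃ β : ℕ → ℕ, β 0 = W ∧
      ∀ j, β (j + 1) = β j + (AB (M * W + M * β j)).natAbs + W :=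
    ⟨fun m => Nat.rec W (fun _ e => e + (AB (M * W + M * e)).natAbs + W) m, rfl, fun _ => rfl⟩
  have hβm : Monotone β := monotone_nat_of_le_succ fun j => by rw [hβs]; omega
  obtain ⟨A', hA0, hAs⟩ : ∃ A' : ℕ → ℤ, A' 0 = 0 ∧ ∀ j, A' (j + 1) = AB (M * W + M * β j) :=
    ⟨fun m => Nat.casesOn m 0 (fun j => AB (M * W + M * β j)), rfl, fun _ => rfl⟩
  have hAβ : ∀ j, (A' j).natAbs + W ≤ β j := by
    intro j
    cases j with
    | zero => rw [hA0, hβ0]; simp
    | succ j => rw [hAs, hβs]; omega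
  obtain ⟨u, hu⟩ : ∃ u : Fin n → Fin K → ℤ,
    u = fun (g : Fin n) (s : Fin K) =>
      (N : ℤ) * ((A' g.1 / P) / N) + (((finProdFinEquiv (g, s) : Fin (n * K)) : ℕ) : ℤ) := ⟨_, rfl⟩
  obtain ⟨b, hb⟩ : ∃ b : Fin n → Fin K → ℤ,
    b = fun (g : Fin n) (s : Fin K) => 1 + (P : ℤ) * u g s := ⟨_, rfl⟩
  have hidx : ∀ (g : Fin n) (s : Fin K), (((finProdFinEquiv (g, s) : Fin (n * K)) : ℕ) : ℤ) < N := by
    intro g s
    have h1 := (finProdFinEquiv (g, s) : Fin (n * K)).2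
    have h2 : ((finProdFinEquiv (g, s) : Fin (n * K)) : ℕ) < N := by omega
    exact_mod_cast h2
  have hbA : ∀ (g : Fin n) (s : Fin K), |b g s - A' g.1| ≤ W := by
    intro g s
    have h1 := Int.mul_ediv_add_emod (A' g) P
    have h2 := Int.emod_nonneg (A' g) hPz.ne'
    have h3 := Int.emod_lt_of_pos (A' g) hPz
    have h4 := Int.mul_ediv_add_emod (A' g / P) N
    have h5 := Int.emod_nonneg (A' g / P) hNz.ne'
    have h6 := Int.emod_lt_of_pos (A' g / P) hNz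
    have h7 := hidx g s
    have h8 : (0 : ℤ) ≤ (((finProdFinEquiv (g, s) : Fin (n * K)) : ℕ) : ℤ) := by positivity
    set I : ℤ := (((finProdFinEquiv (g, s) : Fin (n * K)) : ℕ) : ℤ) with hI
    have e1 : b g s - A' g = 1 - A' g % P + P * (I - A' g / P % N) := by
      rw [hb, hu]
      simp only
      rw [← hI]
      linear_combination h1 + (P : ℤ) * h4
    rw [e1, hW]
    have e2 : |I - A' g / P % N| ≤ N := by rw [abs_le]; constructor <;> linarith
    have e3 : |1 - A' g % P| ≤ P + 1 := by rw [abs_le]; constructor <;> linarith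
    calc |1 - A' g % P + P * (I - A' g / P % N)| ≤ |1 - A' g % P| + |P * (I - A' g / P % N)| :=
          abs_add_le _ _
      _ = |1 - A' g % P| + P * |I - A' g / P % N| := by rw [abs_mul, abs_of_pos hPz]
      _ ≤ (P + 1) + P * N := add_le_add e3 (mul_le_mul_of_nonneg_left e2 hPz.le)
      _ ≤ ((P * (N + 2) : ℕ) : ℤ) := by
          push_cast
          have : (1 : ℤ) ≤ P := hPz
          linarith
  have hbβ : ∀ (g : Fin n) (s : Fin K), |b g s| ≤ β g.1 := by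
    intro g s
    have h1 := hbA g s
    have h2 : |b g s| ≤ |b g s - A' g| + |A' g| := by
      have := abs_add_le (b g s - A' g) (A' g)
      rwa [sub_add_cancel] at this
    have h3 : ((A' g).natAbs : ℤ) + W ≤ β g := by exact_mod_cast hAβ g
    rw [← Int.abs_eq_natAbs] at h3
    linarith
  have hbinj : ∀ (g : Fin n) (s : Fin K) (g' : Fin n) (s' : Fin K), b g s = b g' s' →
      g = g' ∧ s = s' := by
    intro g s g' s' h1
    rw [hb] at h1
    simp only at h1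
    have h2 : u g s = u g' s' := mul_left_cancel₀ hPz.ne' (add_left_cancel h1)
    have h3 : ∀ (g : Fin n) (s : Fin K), u g s % N = (((finProdFinEquiv (g, s) : Fin (n * K)) : ℕ) : ℤ) := by
      intro g s
      rw [hu]
      simp only
      rw [Int.mul_add_emod_self_left]
      exact Int.emod_eq_of_lt (by positivity) (hidx g s)
    have h4 := h3 g s
    rw [h2, h3 g' s'] at h4
    have h5 : (finProdFinEquiv (g', s') : Fin (n * K)) = finProdFinEquiv (g, s) :=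
      Fin.ext (by exact_mod_cast h4)
    have h6 := finProdFinEquiv.injective h5
    exact ⟨(congrArg Prod.fst h6).symm, (congrArg Prod.snd h6).symm⟩
  -- the coloured Maynard-Tao theorem
  obtain ⟨S, c, hS, hBig⟩ := hQ5 (fun g _ => ((Λ * m g : ℕ) : ℤ)) b
    (fun g _ => by exact_mod_cast Nat.mul_pos hΛ0 (hm g))
    (by
      rintro ⟨g, s⟩ ⟨g', s'⟩ h
      obtain ⟨h1, h2⟩ := hbinj g s g' s' (congrArg Prod.snd h)
      rw [h1, h2])
    (by
      intro p hp
      have hpp := Nat.prime_iff_prime_int.1 hp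
      by_cases hpP : (p : ℤ) ∣ P
      · refine ⟨0, fun g s hdv => ?_⟩
        rw [mul_zero, zero_add, hb] at hdv
        exact hpp.not_isUnit (isUnit_of_dvd_one ((dvd_add_left (Dvd.dvd.mul_right hpP _)).1 hdv))
      · have hlt : N < p := by
          by_contra hle
          apply hpP
          rw [hP, hΛ]
          exact_mod_cast (Nat.dvd_factorial hp.pos (not_lt.1 hle)).mul_right _
        obtain ⟨y, hy⟩ := exists_avoid (ι := Fin n × Fin K) hp (by
          rw [Fintype.card_prod, Fintype.card_fin, Fintype.card_fin]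
          omega) (fun t => ((Λ * m t.1 : ℕ) : ℤ)) (fun t => b t.1 t.2) (fun t h => by
            exfalso
            apply hpP
            refine h.trans ?_
            rw [hP]
            exact_mod_cast Nat.mul_dvd_mul_left Λ (hmM t.1))
        exact ⟨y, fun g s => hy (g, s)⟩)
  obtain ⟨g, hg, g', hg', hlt, hgQ⟩ := hPQ S hS
  have hlt' : g.1 < g'.1 := hlt
  obtain ⟨j, hj⟩ : ∃ j : ℕ, j + 1 = g'.1 := ⟨g'.1 - 1, by omega⟩
  -- the reduced slope
  obtain ⟨G, hG⟩ : ∃ G : ℕ, G = Nat.gcd (m g) (m g') := ⟨_, rfl⟩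
  have hG0 : 0 < G := by rw [hG]; exact Nat.gcd_pos_of_pos_left _ (hm g)
  obtain ⟨a, ha⟩ : ∃ a : ℕ, m g = G * a := by rw [hG]; exact Nat.gcd_dvd_left _ _
  obtain ⟨e, he⟩ : ∃ e : ℕ, m g' = G * e := by rw [hG]; exact Nat.gcd_dvd_right _ _
  have hae : Nat.Coprime a e := by
    have h1 : G * Nat.gcd a e = G * 1 := by
      rw [← Nat.gcd_mul_left, ← ha, ← he, mul_one, hG]
    exact Nat.eq_of_mul_eq_mul_left hG0 h1
  have ha0 : 1 ≤ a := by
    have := hm g
    rcases Nat.eq_zero_or_pos a with h | h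
    · rw [h, mul_zero] at ha; omega
    · exact h
  have he0 : 1 ≤ e := by
    have := hm g'
    rcases Nat.eq_zero_or_pos e with h | h
    · rw [h, mul_zero] at he; omega
    · exact h
  have haM : a ∣ M := (Dvd.intro_left G ha.symm).trans (hmM g)
  have heM : e ∣ M := (Dvd.intro_left G he.symm).trans (hmM g')
  have haMle : a ≤ M := Nat.le_of_dvd hM0 haM
  have heMle : e ≤ M := Nat.le_of_dvd hM0 heM
  have hMP : (M : ℤ) ∣ P := by rw [hP]; push_cast; exact Dvd.intro_left _ rfl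
  have hcopb : ∀ (t : ℕ) (z : Fin n) (s : Fin K), t ∣ M → IsCoprime (t : ℤ) (b z s) := by
    intro t z s ht
    have h1 : (t : ℤ) ∣ P := (by exact_mod_cast ht : (t : ℤ) ∣ M).trans hMP
    obtain ⟨w, hw⟩ := h1
    refine ⟨-(w * u z s), 1, ?_⟩
    rw [hb]
    simp only
    rw [hw]
    ring
  have haeZ : IsCoprime (a : ℤ) e := Nat.isCoprime_iff_coprime.2 hae
  have hac : IsCoprime (a : ℤ) (a * b g' (c g') - e * b g (c g)) := by
    have h1 : IsCoprime (a : ℤ) (-(e * b g (c g))) := (haeZ.mul_right (hcopb a g (c g) haM)).neg_right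
    have h2 := h1.add_mul_left_right (b g' (c g'))
    have h3 : -(e * b g (c g)) + a * b g' (c g') = a * b g' (c g') - e * b g (c g) := by ring
    rwa [h3] at h2
  have hec : IsCoprime (e : ℤ) (a * b g' (c g') - e * b g (c g)) := by
    have h1 : IsCoprime (e : ℤ) (a * b g' (c g')) := haeZ.symm.mul_right (hcopb e g' (c g') heM)
    have h2 := h1.add_mul_left_right (-(b g (c g)))
    have h3 : a * b g' (c g') + e * (-(b g (c g))) = a * b g' (c g') - e * b g (c g) := by ring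
    rwa [h3] at h2
  have hP2 : (2 : ℤ) ∣ P := by
    have h1 : 2 ∣ Λ := by rw [hΛ]; exact Nat.dvd_factorial (by norm_num) (by omega)
    rw [hP]
    exact_mod_cast h1.mul_right M
  have hbodd : ∀ (z : Fin n) (s : Fin K), Odd (b z s) := by
    intro z s
    obtain ⟨w, hw⟩ := hP2
    refine ⟨w * u z s, ?_⟩
    rw [hb]
    simp only
    rw [hw]
    ring
  have hnz : (a : ℤ) * b g' (c g') - e * b g (c g) ≠ 0 := by
    intro h0
    rw [h0] at hac hec
    have h1 : IsUnit (a : ℤ) := isCoprime_zero_right.1 hac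
    have h2 : IsUnit (e : ℤ) := isCoprime_zero_right.1 hec
    have h3 : a = 1 := by
      have := Int.isUnit_iff.1 h1
      omega
    have h4 : e = 1 := by
      have := Int.isUnit_iff.1 h2
      omega
    rw [h3, h4] at h0
    have h5 : b g' (c g') = b g (c g) := by push_cast at h0; linarith
    have h6 := (hbinj _ _ _ _ h5).1
    rw [h6] at hlt
    exact lt_irrefl _ hlt
  refine hAB (M * W + M * β j) g g' hgQ a e (a * b g' (c g') - e * b g (c g)) ha0 he0 ?_ hnz haeZ hac hec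
    ?_ ?_ ?_
  · rw [ha, he]; ring
  · rintro ⟨h1, h2, h3⟩
    have h4 : Odd ((a : ℤ) * b g' (c g')) := ((Int.odd_coe_nat a).2 h1).mul (hbodd _ _)
    have h5 : Odd ((e : ℤ) * b g (c g)) := ((Int.odd_coe_nat e).2 h2).mul (hbodd _ _)
    exact (Int.not_even_iff_odd.2 h3) (h4.sub_odd h5)
  · have h1 : A' g' = AB (M * W + M * β j) := by rw [← hj, hAs]
    rw [← h1]
    have h2 := hbA g' (c g')
    have h3 := hbβ g (c g)
    have h4 : β g ≤ β j := hβm (by omega)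
    calc |(a : ℤ) * b g' (c g') - e * b g (c g) - a * A' g'|
        = |a * (b g' (c g') - A' g') - e * b g (c g)| := by congr 1; ring
      _ ≤ |a * (b g' (c g') - A' g')| + |e * b g (c g)| := abs_sub _ _
      _ = a * |b g' (c g') - A' g'| + e * |b g (c g)| := by
          rw [abs_mul, abs_mul, Nat.abs_cast, Nat.abs_cast]
      _ ≤ (M : ℤ) * W + (M : ℤ) * (β j : ℤ) := by
          apply add_le_add
          · exact mul_le_mul (by exact_mod_cast haMle) h2 (abs_nonneg _) (by positivity)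
          · exact mul_le_mul (by exact_mod_cast heMle) (h3.trans (by exact_mod_cast h4)) (abs_nonneg _)
              (by positivity)
      _ = ((M * W + M * β j : ℕ) : ℤ) := by push_cast; ring
  · refine Big.affine hBig (Λ * m g) (b g (c g)) (Nat.mul_pos hΛ0 (hm g))
      (fun n => (((Λ * m g : ℕ) : ℤ) * n + b g (c g)).toNat) ?_ ?_
    · intro n hn
      exact Int.toNat_of_nonneg (hn g hg).1.le
    · intro n hn
      obtain ⟨h1, h2⟩ := hn g hg
      obtain ⟨h3, h4⟩ := hn g' hg'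
      have h5 : (((((Λ * m g : ℕ) : ℤ) * n + b g (c g)).toNat : ℕ) : ℤ) =
        ((Λ * m g : ℕ) : ℤ) * n + b g (c g) := Int.toNat_of_nonneg h1.le
      refine ⟨?_, (((Λ * m g' : ℕ) : ℤ) * n + b g' (c g')).toNat, ?_, ?_⟩
      · rw [Nat.prime_iff_prime_int, h5]
        exact h2
      · rw [Nat.prime_iff_prime_int, Int.toNat_of_nonneg h3.le]
        exact h4
      · rw [h5, Int.toNat_of_nonneg h3.le, ha, he]
        push_cast
        ring

theorem more_than_quarter : ∃ δ : ℝ, 0 < δ ∧ ∀ (n : ℕ) (m : Fin n → ℕ), (∀ i, 1 ≤ m i) →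
    ∃ C : ℕ, ∀ B : ℤ, ∃ S : Finset (Fin n), (1 / 4 + δ) * (n : ℝ) ≤ S.card ∧
      ∀ i ∈ S, ∀ j ∈ S, i < j → GoodAt m C B i j := by
  obtain ⟨c₀, hc₀, hc₁, H⟩ := quarterD
  have h4 : (0 : ℝ) < 4 - c₀ := by linarith
  refine ⟨1 / (4 - c₀) - 1 / 4, ?_, ?_⟩
  · have : 1 / 4 < 1 / (4 - c₀) := one_div_lt_one_div_of_lt h4 (by linarith)
    linarith
  · intro n m hm
    obtain ⟨K, hK, hQ⟩ := H n
    obtain ⟨C, hC⟩ := cliques (K := K) (fun S : Finset (Fin n) => (n : ℝ) ≤ (4 - c₀) * S.card) hQ m hm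
    refine ⟨C, fun B => ?_⟩
    obtain ⟨S, hS, h⟩ := hC B
    refine ⟨S, ?_, h⟩
    have e : (1 / 4 + (1 / (4 - c₀) - 1 / 4)) * (n : ℝ) = n / (4 - c₀) := by ring
    rw [e, div_le_iff₀ h4]
    linarith

end Pool.Agent.Y860.SL
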